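import Mathlib

open Finset Complex

namespace Pool.Agent.Results.MP_e96fbd_an.EqualSidon

/-- The value at `t` of the `E`-polynomial with coefficients `a`, that is
`∑_{x ∈ E} a_x exp (2 π i x t / k)`. -/
noncomputable def polyVal {k : ℕ} [NeZero k] (E : Finset (ZMod k)) (a : ZMod k → ℂ)
    (t : ZMod k) : ℂ :=
  ∑ x ∈ E, a x * ZMod.stdAddChar (x * t)

/-- The Sidon constant of `E ⊆ ZMod k`. -/
noncomputable def sidonConst {k : ℕ} [NeZero k] (E : Finset (ZMod k)) : ℝ :=
  sSup {s : ℝ | ∃ a : ZMod k → ℂ, (∀ t : ZMod k, ‖polyVal E a t‖ ≤ 1) ∧ s = ∑ x ∈ E, ‖a x‖}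

/-- `E` is extreme if its Sidon constant is the square root of its cardinality. -/
def IsExtreme {k : ℕ} [NeZero k] (E : Finset (ZMod k)) : Prop :=
  sidonConst E = √(E.card : ℝ)

/-- `F` is the image of `E` under a group automorphism of `ZMod k` followed by a translation. -/
def Equivalent {k : ℕ} (E F : Finset (ZMod k)) : Prop :=
  ∃ (u : (ZMod k)ˣ) (c : ZMod k), F = E.image (fun x => (u : ZMod k) * x + c)

lemma parseval {k : ℕ} [NeZero k] (E : Finset (ZMod k)) (a : ZMod k → ℂ) :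
    ∑ t : ZMod k, ‖polyVal E a t‖ ^ 2 = k * ∑ x ∈ E, ‖a x‖ ^ 2 := by
  have key : ∑ t : ZMod k, (polyVal E a t * (starRingEnd ℂ) (polyVal E a t))
      = k * ∑ x ∈ E, (a x * (starRingEnd ℂ) (a x)) := by
    have h1 : ∀ t : ZMod k, polyVal E a t * (starRingEnd ℂ) (polyVal E a t)
        = ∑ x ∈ E, ∑ y ∈ E, a x * (starRingEnd ℂ) (a y) * ZMod.stdAddChar (t * (x - y)) := by
      intro t
      unfold polyVal
      rw [map_sum, Finset.sum_mul_sum]
      refine Finset.sum_congr rfl fun x _ => Finset.sum_congr rfl fun y _ => ?_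
      rw [map_mul (starRingEnd ℂ), ← AddChar.map_neg_eq_conj]
      have : t * (x - y) = x * t + -(y * t) := by ring
      rw [this, AddChar.map_add_eq_mul]
      ring
    simp_rw [h1]
    rw [Finset.sum_comm, Finset.mul_sum]
    refine Finset.sum_congr rfl fun x hx => ?_
    rw [Finset.sum_comm]
    have h2 : ∀ y ∈ E, ∑ t : ZMod k, a x * (starRingEnd ℂ) (a y) * ZMod.stdAddChar (t * (x - y))
        = if x = y then (k : ℂ) * (a x * (starRingEnd ℂ) (a x)) else 0 := by
      intro y _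
      rw [← Finset.mul_sum, AddChar.sum_mulShift _ (ZMod.isPrimitive_stdAddChar k), ZMod.card]
      by_cases h : x = y
      · subst h; simp; ring
      · have : x - y ≠ 0 := sub_ne_zero.mpr h
        simp [h, this]
    rw [Finset.sum_congr rfl h2, Finset.sum_ite_eq]
    simp [hx]
  have h3 : ∀ z : ℂ, z * (starRingEnd ℂ) z = ((‖z‖ ^ 2 : ℝ) : ℂ) := by
    intro z
    rw [Complex.mul_conj, Complex.normSq_eq_norm_sq]
  simp_rw [h3] at key
  exact_mod_cast key

/-- Cauchy-Schwarz and Parseval. -/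
lemma sum_sq_le {k : ℕ} [NeZero k] (E : Finset (ZMod k)) (a : ZMod k → ℂ) {ρ : ℝ} (hρ : 0 ≤ ρ)
    (h : ∀ t, ‖polyVal E a t‖ ≤ ρ) : ∑ x ∈ E, ‖a x‖ ≤ √(E.card : ℝ) * ρ := by
  have hk : (0 : ℝ) < (k : ℝ) := by
    have := NeZero.pos k
    exact_mod_cast this
  have hpars := parseval E a
  have hle : ∑ t : ZMod k, ‖polyVal E a t‖ ^ 2 ≤ (k : ℝ) * ρ ^ 2 := by
    have : ∑ t : ZMod k, ‖polyVal E a t‖ ^ 2 ≤ ∑ _t : ZMod k, ρ ^ 2 := by
      refine Finset.sum_le_sum fun t _ => ?_
      have h1 := h t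
      have h2 := norm_nonneg (polyVal E a t)
      nlinarith
    simpa [Finset.sum_const, Finset.card_univ, ZMod.card] using this
  rw [hpars] at hle
  have hsum2 : ∑ x ∈ E, ‖a x‖ ^ 2 ≤ ρ ^ 2 := le_of_mul_le_mul_left hle hk
  have hcs : (∑ x ∈ E, ‖a x‖) ^ 2 ≤ E.card * ρ ^ 2 := by
    have h1 := sq_sum_le_card_mul_sum_sq (s := E) (f := fun x => ‖a x‖)
    have hm0 : (0 : ℝ) ≤ E.card := by positivity
    nlinarith
  apply abs_le_of_sq_le_sq' _ (by positivity) |>.2
  rw [mul_pow, Real.sq_sqrt (by positivity)]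
  exact hcs

lemma bddAbove_sidon {k : ℕ} [NeZero k] (E : Finset (ZMod k)) :
    BddAbove {s : ℝ | ∃ a : ZMod k → ℂ, (∀ t : ZMod k, ‖polyVal E a t‖ ≤ 1) ∧
      s = ∑ x ∈ E, ‖a x‖} := by
  refine ⟨√(E.card : ℝ) * 1, ?_⟩
  rintro s ⟨a, ha, rfl⟩
  exact sum_sq_le E a zero_le_one ha

lemma nonempty_sidon {k : ℕ} [NeZero k] (E : Finset (ZMod k)) :
    {s : ℝ | ∃ a : ZMod k → ℂ, (∀ t : ZMod k, ‖polyVal E a t‖ ≤ 1) ∧
      s = ∑ x ∈ E, ‖a x‖}.Nonempty :=
  ⟨0, 0, by intro t; simp [polyVal], by simp⟩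

lemma sidonConst_le {k : ℕ} [NeZero k] (E : Finset (ZMod k)) :
    sidonConst E ≤ √(E.card : ℝ) := by
  refine csSup_le (nonempty_sidon E) ?_
  rintro s ⟨a, ha, rfl⟩
  simpa using sum_sq_le E a zero_le_one ha

lemma le_sidonConst {k : ℕ} [NeZero k] (E : Finset (ZMod k)) (a : ZMod k → ℂ)
    (ha : ∀ t, ‖polyVal E a t‖ ≤ 1) : ∑ x ∈ E, ‖a x‖ ≤ sidonConst E :=
  le_csSup (bddAbove_sidon E) ⟨a, ha, rfl⟩

lemma polyVal_smul {k : ℕ} [NeZero k] (E : Finset (ZMod k)) (a : ZMod k → ℂ) (c : ℂ)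
    (t : ZMod k) : polyVal E (fun x => c * a x) t = c * polyVal E a t := by
  unfold polyVal
  rw [Finset.mul_sum]
  exact Finset.sum_congr rfl fun x _ => by ring

/-- Homogeneous form of the definition of the Sidon constant. -/
lemma sum_le_sidon_mul {k : ℕ} [NeZero k] (E : Finset (ZMod k)) (a : ZMod k → ℂ) {ρ : ℝ}
    (hρ : 0 ≤ ρ) (h : ∀ t, ‖polyVal E a t‖ ≤ ρ) : ∑ x ∈ E, ‖a x‖ ≤ sidonConst E * ρ := by
  rcases hρ.eq_or_lt with h0 | h0
  · subst h0
    have := sum_sq_le E a le_rfl h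
    simpa using this
  · have h1 := le_sidonConst E (fun x => ((ρ⁻¹ : ℝ) : ℂ) * a x) (by
      intro t
      rw [polyVal_smul, norm_mul, Complex.norm_real, Real.norm_of_nonneg (by positivity)]
      rw [inv_mul_le_iff₀ h0, mul_one]
      exact h t)
    have h2 : ∑ x ∈ E, ‖((ρ⁻¹ : ℝ) : ℂ) * a x‖ = ρ⁻¹ * ∑ x ∈ E, ‖a x‖ := by
      rw [Finset.mul_sum]
      refine Finset.sum_congr rfl fun x _ => ?_
      rw [norm_mul, Complex.norm_real, Real.norm_of_nonneg (by positivity)]
    rw [h2, inv_mul_le_iff₀ h0] at h1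
    linarith

/-- If all rotated sums `z + b ζ`, `ζ ^ r = 1`, have modulus at most one, then
`‖z‖ + ‖b‖ cos (π / r) ≤ 1`. -/
lemma rot_bound {r : ℕ} (hr : 2 ≤ r) (z b : ℂ)
    (h : ∀ s : ℕ, ‖z + b * Complex.exp (2 * Real.pi * I * s / r)‖ ≤ 1) :
    ‖z‖ + ‖b‖ * Real.cos (Real.pi / r) ≤ 1 := by
  have hr0 : (0 : ℝ) < r := by
    have : 0 < r := by omega
    exact_mod_cast this
  have hrC : (r : ℂ) ≠ 0 := by exact_mod_cast hr0.ne'
  -- extend to integers
  have hint : ∀ s : ℤ, ‖z + b * Complex.exp (2 * Real.pi * I * s / r)‖ ≤ 1 := by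
    intro s
    have h1 := h (s % r).toNat
    have hnn : 0 ≤ s % (r : ℤ) := Int.emod_nonneg _ (by omega)
    have h2 : (((s % (r : ℤ)).toNat : ℕ) : ℂ) = (s : ℂ) - r * (s / (r : ℤ) : ℤ) := by
      have h3 : (((s % (r : ℤ)).toNat : ℕ) : ℤ) = s - r * (s / (r : ℤ)) := by
        rw [Int.toNat_of_nonneg hnn, Int.emod_def]
      exact_mod_cast h3
    rw [h2] at h1
    have h4 : Complex.exp (2 * Real.pi * I * ((s : ℂ) - r * (s / (r : ℤ) : ℤ)) / r)
        = Complex.exp (2 * Real.pi * I * s / r) := by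
      rw [Complex.exp_eq_exp_iff_exists_int]
      refine ⟨-(s / (r : ℤ)), ?_⟩
      push_cast
      field_simp
      ring
    rw [h4] at h1
    exact h1
  set α := Complex.arg z
  set β := Complex.arg b
  set s : ℤ := round ((α - β) * r / (2 * Real.pi)) with hs
  set θ : ℝ := (α - β) - 2 * Real.pi * s / r with hθ
  have hpi := Real.pi_pos
  have hθle : |θ| ≤ Real.pi / r := by
    have h1 := abs_sub_round ((α - β) * r / (2 * Real.pi))
    rw [← hs] at h1
    have h2 : θ = (2 * Real.pi / r) * ((α - β) * r / (2 * Real.pi) - s) := by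
      rw [hθ]; field_simp
    rw [h2, abs_mul, abs_of_pos (by positivity)]
    calc 2 * Real.pi / r * |(α - β) * r / (2 * Real.pi) - s| ≤ 2 * Real.pi / r * (1 / 2) := by
          gcongr
      _ = Real.pi / r := by ring
  have hcos : Real.cos (Real.pi / r) ≤ Real.cos θ := by
    rw [← Real.cos_abs θ]
    refine Real.cos_le_cos_of_nonneg_of_le_pi (abs_nonneg _) ?_ hθle
    rw [div_le_iff₀ hr0]
    have : (2 : ℝ) ≤ r := by exact_mod_cast hr
    nlinarith
  have hw := hint s
  -- write everything in polar form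
  have ez : z = ‖z‖ * Complex.exp (α * I) := (Complex.norm_mul_exp_arg_mul_I z).symm
  have eb : b = ‖b‖ * Complex.exp (β * I) := (Complex.norm_mul_exp_arg_mul_I b).symm
  have e1 : z + b * Complex.exp (2 * Real.pi * I * s / r)
      = Complex.exp (α * I) * (‖z‖ + ‖b‖ * Complex.exp (((-θ : ℝ) : ℂ) * I)) := by
    have h3 : Complex.exp (α * I) * (‖b‖ * Complex.exp (((-θ : ℝ) : ℂ) * I))
        = b * Complex.exp (2 * Real.pi * I * s / r) := by
      calc Complex.exp (α * I) * (‖b‖ * Complex.exp (((-θ : ℝ) : ℂ) * I))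
          = ‖b‖ * (Complex.exp (α * I) * Complex.exp (((-θ : ℝ) : ℂ) * I)) := by ring
        _ = ‖b‖ * (Complex.exp (β * I) * Complex.exp (2 * Real.pi * I * s / r)) := by
            rw [← Complex.exp_add, ← Complex.exp_add]
            congr 2
            rw [hθ]; push_cast; ring
        _ = (‖b‖ * Complex.exp (β * I)) * Complex.exp (2 * Real.pi * I * s / r) := by ring
        _ = b * Complex.exp (2 * Real.pi * I * s / r) := by rw [← eb]
    rw [mul_add, h3, mul_comm (Complex.exp (α * I)) (‖z‖ : ℂ), ← ez]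
  rw [e1, norm_mul, Complex.norm_exp_ofReal_mul_I, one_mul] at hw
  have h5 : ‖z‖ + ‖b‖ * Real.cos θ ≤ ‖(‖z‖ + ‖b‖ * Complex.exp (((-θ : ℝ) : ℂ) * I) : ℂ)‖ := by
    have h6 := Complex.re_le_norm (‖z‖ + ‖b‖ * Complex.exp (((-θ : ℝ) : ℂ) * I) : ℂ)
    have h7 : (‖z‖ + ‖b‖ * Complex.exp (((-θ : ℝ) : ℂ) * I) : ℂ).re
        = ‖z‖ + ‖b‖ * Real.cos θ := by
      rw [Complex.add_re, Complex.ofReal_re, Complex.re_ofReal_mul, Complex.exp_ofReal_mul_I_re,
        Real.cos_neg]
    rw [h7] at h6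
    exact h6
  have h8 := norm_nonneg b
  nlinarith


lemma union_pt {M r : ℕ} [NeZero (M * r)] (hr : 2 ≤ r) (E : Finset (ZMod (M * r)))
    (hE : ∀ x ∈ E, x * (M : ZMod (M * r)) = 0) (h1 : (1 : ZMod (M * r)) ∉ E)
    (a : ZMod (M * r) → ℂ) (h : ∀ t, ‖polyVal (insert 1 E) a t‖ ≤ 1) (t : ZMod (M * r)) :
    ‖polyVal E a t‖ + ‖a 1‖ * Real.cos (Real.pi / r) ≤ 1 := by
  have hMr : M * r ≠ 0 := NeZero.ne _
  have hM : (M : ℂ) ≠ 0 := by
    have : M ≠ 0 := fun h => hMr (by rw [h, zero_mul])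
    exact_mod_cast this
  have hrC : (r : ℂ) ≠ 0 := by
    have : r ≠ 0 := by omega
    exact_mod_cast this
  have h2 := rot_bound hr (polyVal E a t) (a 1 * ZMod.stdAddChar t) (by
    intro s
    have h3 := h (t + ((M * s : ℕ) : ZMod (M * r)))
    have h4 : polyVal (insert 1 E) a (t + ((M * s : ℕ) : ZMod (M * r)))
        = polyVal E a t + a 1 * ZMod.stdAddChar t * Complex.exp (2 * Real.pi * I * s / r) := by
      unfold polyVal
      rw [Finset.sum_insert h1, add_comm]
      congr 1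
      · refine Finset.sum_congr rfl fun x hx => ?_
        have : x * (t + ((M * s : ℕ) : ZMod (M * r))) = x * t := by
          rw [mul_add, Nat.cast_mul, ← mul_assoc, hE x hx, zero_mul, add_zero]
        rw [this]
      · rw [one_mul, AddChar.map_add_eq_mul, ← mul_assoc]
        congr 1
        have h5 : ((M * s : ℕ) : ZMod (M * r)) = (((M * s : ℕ) : ℤ) : ZMod (M * r)) := by
          rw [Int.cast_natCast]
        rw [h5, ZMod.stdAddChar_coe]
        congr 1
        push_cast
        field_simp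
    rw [h4] at h3
    exact h3)
  rw [norm_mul, AddChar.norm_apply, mul_one] at h2
  exact h2

lemma abs_cos_odd {M : ℕ} (hM : 1 ≤ M) (j : ℕ) :
    |Real.cos (Real.pi * (2 * j + 1) / (2 * M))| ≤ Real.cos (Real.pi / (2 * M)) := by
  have hM0 : (0 : ℝ) < M := by exact_mod_cast hM
  have hpi := Real.pi_pos
  have h1 : Real.pi * (2 * j + 1) / (2 * M)
      = Real.pi * (2 * (j % M : ℕ) + 1) / (2 * M) + (j / M : ℕ) * Real.pi := by
    have h2 : (j : ℝ) = (j % M : ℕ) + M * (j / M : ℕ) := by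
      exact_mod_cast (Nat.mod_add_div j M).symm
    field_simp
    linear_combination 2 * h2
  rw [h1, Real.cos_add_nat_mul_pi, abs_mul, abs_pow, abs_neg, abs_one, one_pow, one_mul]
  have hj : ((j % M : ℕ) : ℝ) + 1 ≤ M := by
    have := Nat.mod_lt j hM
    exact_mod_cast this
  have hj0 : (0 : ℝ) ≤ (j % M : ℕ) := by positivity
  set y := Real.pi * (2 * (j % M : ℕ) + 1) / (2 * M) with hy
  have b1 : Real.pi / (2 * M) ≤ y := by
    rw [hy]; gcongr; nlinarith
  have b2 : y ≤ Real.pi - Real.pi / (2 * M) := by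
    have : Real.pi - Real.pi / (2 * M) = Real.pi * (2 * M - 1) / (2 * M) := by field_simp
    rw [this, hy]; gcongr; linarith
  have b0 : 0 ≤ Real.pi / (2 * M) := by positivity
  rw [abs_le]
  constructor
  · rw [← Real.cos_pi_sub]
    exact Real.cos_le_cos_of_nonneg_of_le_pi (by linarith) (by linarith) b2
  · exact Real.cos_le_cos_of_nonneg_of_le_pi b0 (by linarith) b1

lemma exists_of_mul_eq_zero {M r : ℕ} [NeZero (M * r)] (y : ZMod (M * r))
    (hy : y * (M : ZMod (M * r)) = 0) : ∃ j : ℕ, y = ((r * j : ℕ) : ZMod (M * r)) := by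
  have hMr : M * r ≠ 0 := NeZero.ne _
  have hM : 0 < M := Nat.pos_of_ne_zero fun h => hMr (by rw [h, zero_mul])
  have h1 : ((y.val * M : ℕ) : ZMod (M * r)) = 0 := by
    rw [Nat.cast_mul, ZMod.natCast_zmod_val]; exact hy
  rw [ZMod.natCast_eq_zero_iff, mul_comm y.val M] at h1
  obtain ⟨j, hj⟩ := Nat.dvd_of_mul_dvd_mul_left hM h1
  exact ⟨j, by rw [← hj, ZMod.natCast_zmod_val]⟩

lemma norm_one_add_exp (φ : ℝ) : ‖(1 : ℂ) + Complex.exp (φ * I)‖ = 2 * |Real.cos (φ / 2)| := by
  have h1 : (1 : ℂ) + Complex.exp (φ * I)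
      = Complex.exp ((φ / 2 : ℝ) * I) * ((2 * Real.cos (φ / 2) : ℝ) : ℂ) := by
    have h2 : (2 * Real.cos (φ / 2) : ℂ)
        = Complex.exp ((φ / 2 : ℝ) * I) + Complex.exp (-((φ / 2 : ℝ) * I)) := by
      push_cast
      rw [Complex.two_cos]
      ring_nf
    rw [show ((2 * Real.cos (φ / 2) : ℝ) : ℂ) = 2 * Real.cos (φ / 2) by push_cast; ring, h2,
      mul_add, ← Complex.exp_add, ← Complex.exp_add]
    have h3 : ((φ / 2 : ℝ) : ℂ) * I + ((φ / 2 : ℝ) : ℂ) * I = φ * I := by push_cast; ring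
    rw [h3]
    simp [add_comm]
  rw [h1, norm_mul, Complex.norm_exp_ofReal_mul_I, one_mul, Complex.norm_real, Real.norm_eq_abs,
    abs_mul, abs_two]

/-- Lower bound for the Sidon constant from a pair of elements. -/
lemma pair_bound {M r : ℕ} [NeZero (M * r)] (hM : 2 ≤ M) (E : Finset (ZMod (M * r)))
    {x y : ZMod (M * r)} (hx : x ∈ E) (hy : y ∈ E) (hxy : x ≠ y)
    (hd : (y - x) * (M : ZMod (M * r)) = 0) :
    1 ≤ sidonConst E * Real.cos (Real.pi / (2 * M)) := by
  have hM0 : (0 : ℝ) < M := by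
    have : 0 < M := by omega
    exact_mod_cast this
  have hMr : M * r ≠ 0 := NeZero.ne _
  have hMC : (M : ℂ) ≠ 0 := by exact_mod_cast hM0.ne'
  have hrC : (r : ℂ) ≠ 0 := by
    have : r ≠ 0 := fun h => hMr (by rw [h, mul_zero])
    exact_mod_cast this
  have hpi := Real.pi_pos
  have hcos : 0 < Real.cos (Real.pi / (2 * M)) := by
    apply Real.cos_pos_of_mem_Ioo
    have h2M : (2 : ℝ) ≤ M := by exact_mod_cast hM
    constructor
    · have : 0 < Real.pi / (2 * M) := by positivity
      linarith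
    · gcongr
      linarith
  set c : ℝ := Real.cos (Real.pi / (2 * M)) with hc
  set w : ℂ := Complex.exp ((Real.pi / M : ℝ) * I) with hw
  set a : ZMod (M * r) → ℂ := fun z => if z = x then 1 else if z = y then w else 0 with ha
  have hval : ∀ t, polyVal E a t = ZMod.stdAddChar (x * t) * (1 + w * ZMod.stdAddChar ((y - x) * t)) := by
    intro t
    have h1 : polyVal E a t
        = ∑ z ∈ E, ((if z = x then ZMod.stdAddChar (x * t) else 0)
          + (if z = y then w * ZMod.stdAddChar (y * t) else 0)) := by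
      unfold polyVal
      refine Finset.sum_congr rfl fun z _ => ?_
      by_cases h1 : z = x
      · subst h1; simp [ha, hxy]
      · by_cases h2 : z = y
        · subst h2; simp [ha, h1]
        · simp [ha, h1, h2]
    rw [h1, Finset.sum_add_distrib, Finset.sum_ite_eq', Finset.sum_ite_eq', if_pos hx, if_pos hy]
    have h2 : y * t = x * t + (y - x) * t := by ring
    rw [h2, AddChar.map_add_eq_mul]
    ring
  have hnorm : ∀ t, ‖polyVal E a t‖ ≤ 2 * c := by
    intro t
    rw [hval t, norm_mul, AddChar.norm_apply, one_mul]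
    obtain ⟨j, hj⟩ := exists_of_mul_eq_zero ((y - x) * t) (by
      rw [mul_right_comm, hd, zero_mul])
    have h1 : (ZMod.stdAddChar ((y - x) * t) : ℂ) = Complex.exp (2 * Real.pi * I * j / M) := by
      have h5 : ((r * j : ℕ) : ZMod (M * r)) = (((r * j : ℕ) : ℤ) : ZMod (M * r)) := by
        rw [Int.cast_natCast]
      rw [hj, h5, ZMod.stdAddChar_coe]
      congr 1
      push_cast
      field_simp
    have h2 : w * Complex.exp (2 * Real.pi * I * j / M)
        = Complex.exp ((2 * (Real.pi * (2 * j + 1) / (2 * M)) : ℝ) * I) := by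
      rw [hw, ← Complex.exp_add]
      congr 1
      push_cast
      field_simp
      ring
    rw [h1, h2, norm_one_add_exp, mul_div_cancel_left₀ _ (by norm_num : (2 : ℝ) ≠ 0)]
    have := abs_cos_odd (show 1 ≤ M by omega) j
    linarith
  have hsum : ∑ z ∈ E, ‖a z‖ = 2 := by
    have h1 : ∀ z ∈ E, ‖a z‖ = (if z = x then (1 : ℝ) else 0) + (if z = y then 1 else 0) := by
      intro z _
      by_cases h1 : z = x
      · subst h1; simp [ha, hxy]
      · by_cases h2 : z = y
        · subst h2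
          have : ‖w‖ = 1 := by rw [hw, Complex.norm_exp_ofReal_mul_I]
          simp [ha, h1, this]
        · simp [ha, h1, h2]
    rw [Finset.sum_congr rfl h1, Finset.sum_add_distrib, Finset.sum_ite_eq', Finset.sum_ite_eq',
      if_pos hx, if_pos hy]
    norm_num
  have := sum_le_sidon_mul E a (by positivity : (0 : ℝ) ≤ 2 * c) hnorm
  rw [hsum] at this
  linarith

lemma sidonConst_mono {k : ℕ} [NeZero k] {E F : Finset (ZMod k)} (h : E ⊆ F) :
    sidonConst E ≤ sidonConst F := by
  refine csSup_le (nonempty_sidon E) ?_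
  rintro s ⟨a, ha, rfl⟩
  have h1 : ∀ t, polyVal F (fun x => if x ∈ E then a x else 0) t = polyVal E a t := by
    intro t
    unfold polyVal
    rw [← Finset.sum_subset h]
    · refine Finset.sum_congr rfl fun x hx => ?_
      simp [hx]
    · intro x _ hx
      simp [hx]
  have h2 := le_sidonConst F (fun x => if x ∈ E then a x else 0) (by
    intro t; rw [h1]; exact ha t)
  have h3 : ∑ x ∈ F, ‖(if x ∈ E then a x else 0 : ℂ)‖ = ∑ x ∈ E, ‖a x‖ := by
    rw [← Finset.sum_subset h]
    · refine Finset.sum_congr rfl fun x hx => ?_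
      simp [hx]
    · intro x _ hx
      simp [hx]
  rw [h3] at h2
  exact h2

/-- Adding an element of large order modulo the subgroup does not change the Sidon constant. -/
lemma sidonConst_insert {M r : ℕ} [NeZero (M * r)] (hM : 2 ≤ M) (hr : 2 * M ≤ r)
    (E : Finset (ZMod (M * r))) (hE : ∀ x ∈ E, x * (M : ZMod (M * r)) = 0)
    (h1 : (1 : ZMod (M * r)) ∉ E) {x y : ZMod (M * r)} (hx : x ∈ E) (hy : y ∈ E) (hxy : x ≠ y) :
    sidonConst (insert 1 E) = sidonConst E := by
  apply le_antisymm _ (sidonConst_mono (Finset.subset_insert _ _))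
  refine csSup_le (nonempty_sidon _) ?_
  rintro s ⟨a, ha, rfl⟩
  have hpair := pair_bound hM E hx hy hxy (by rw [sub_mul, hE x hx, hE y hy, sub_zero])
  have hM0 : (0 : ℝ) < M := by
    have : 0 < M := by omega
    exact_mod_cast this
  have hrM : (2 : ℝ) * M ≤ r := by exact_mod_cast hr
  have hpi := Real.pi_pos
  have hcos : Real.cos (Real.pi / (2 * M)) ≤ Real.cos (Real.pi / r) := by
    refine Real.cos_le_cos_of_nonneg_of_le_pi (by positivity) ?_ ?_
    · rw [div_le_iff₀ (by positivity)]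
      have h2M : (2 : ℝ) ≤ M := by exact_mod_cast hM
      nlinarith
    · exact div_le_div_of_nonneg_left hpi.le (by positivity) hrM
  set c := Real.cos (Real.pi / r) with hc
  have hSnn : 0 ≤ sidonConst E := by
    have := le_sidonConst E 0 (by intro t; simp [polyVal])
    simpa using this
  have hpt := union_pt (by omega : 2 ≤ r) E hE h1 a ha
  have hβ := norm_nonneg (a 1)
  have hρ : 0 ≤ 1 - ‖a 1‖ * c := by
    have := hpt 0
    have := norm_nonneg (polyVal E a 0)
    linarith
  have h2 := sum_le_sidon_mul E a hρ (fun t => by have := hpt t; linarith)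
  rw [Finset.sum_insert h1]
  have h3 : 1 ≤ sidonConst E * c := by nlinarith
  nlinarith

lemma sidonConst_image_unit {k : ℕ} [NeZero k] (E : Finset (ZMod k)) (u : (ZMod k)ˣ) :
    sidonConst (E.image (fun x => (u : ZMod k) * x)) = sidonConst E := by
  have hinj : Function.Injective (fun x : ZMod k => (u : ZMod k) * x) := by
    intro x y h
    exact (Units.mul_right_inj u).mp h
  have hle : ∀ (E : Finset (ZMod k)) (u : (ZMod k)ˣ),
      sidonConst E ≤ sidonConst (E.image (fun x => (u : ZMod k) * x)) := by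
    intro E u
    have hinj : Function.Injective (fun x : ZMod k => (u : ZMod k) * x) := by
      intro x y h
      exact (Units.mul_right_inj u).mp h
    refine csSup_le (nonempty_sidon E) ?_
    rintro s ⟨a, ha, rfl⟩
    have h1 := le_sidonConst (E.image (fun x => (u : ZMod k) * x))
      (fun y => a (((u⁻¹ : (ZMod k)ˣ) : ZMod k) * y)) (by
        intro t
        have h2 : polyVal (E.image (fun x => (u : ZMod k) * x))
            (fun y => a (((u⁻¹ : (ZMod k)ˣ) : ZMod k) * y)) t
            = polyVal E a ((u : ZMod k) * t) := by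
          unfold polyVal
          rw [Finset.sum_image hinj.injOn]
          refine Finset.sum_congr rfl fun x _ => ?_
          have e1 : ((u⁻¹ : (ZMod k)ˣ) : ZMod k) * ((u : ZMod k) * x) = x := by
            rw [← mul_assoc, Units.inv_mul, one_mul]
          have e2 : (u : ZMod k) * x * t = x * ((u : ZMod k) * t) := by ring
          simp only [e1, e2]
        rw [h2]
        exact ha _)
    rw [Finset.sum_image hinj.injOn] at h1
    have h3 : ∑ x ∈ E, ‖a (((u⁻¹ : (ZMod k)ˣ) : ZMod k) * ((u : ZMod k) * x))‖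
        = ∑ x ∈ E, ‖a x‖ := by
      refine Finset.sum_congr rfl fun x _ => ?_
      rw [← mul_assoc, Units.inv_mul, one_mul]
    rw [h3] at h1
    exact h1
  apply le_antisymm _ (hle E u)
  have h4 := hle (E.image (fun x => (u : ZMod k) * x)) u⁻¹
  have h5 : (E.image (fun x => (u : ZMod k) * x)).image
      (fun x => ((u⁻¹ : (ZMod k)ˣ) : ZMod k) * x) = E := by
    rw [Finset.image_image]
    have : ((fun x => ((u⁻¹ : (ZMod k)ˣ) : ZMod k) * x) ∘ fun x => (u : ZMod k) * x) = id := by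
      funext x
      simp only [Function.comp, id]
      rw [← mul_assoc, Units.inv_mul, one_mul]
    rw [this, Finset.image_id]
  rw [h5] at h4
  exact h4

lemma Equivalent.symm {k : ℕ} {E F : Finset (ZMod k)} (h : Equivalent E F) : Equivalent F E := by
  obtain ⟨u, c, rfl⟩ := h
  refine ⟨u⁻¹, -(((u⁻¹ : (ZMod k)ˣ) : ZMod k) * c), ?_⟩
  rw [Finset.image_image]
  have : ((fun x => ((u⁻¹ : (ZMod k)ˣ) : ZMod k) * x + -(((u⁻¹ : (ZMod k)ˣ) : ZMod k) * c))
      ∘ fun x => (u : ZMod k) * x + c) = id := by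
    funext x
    simp only [Function.comp, id]
    rw [mul_add, ← mul_assoc, Units.inv_mul]
    ring
  rw [this, Finset.image_id]


/-- The base set `{0, r, 2 r, ..., (q - 1) r}` of `ZMod (M * r)`. -/
def base (M r q : ℕ) : Finset (ZMod (M * r)) :=
  (Finset.range q).image (fun i : ℕ => ((r * i : ℕ) : ZMod (M * r)))

/-- The set `{0, s r, 2 s r, ..., (q - 1) s r} ∪ {1}` of `ZMod (M * r)`. -/
def setE (M r q s : ℕ) : Finset (ZMod (M * r)) :=
  insert 1 ((base M r q).image (fun x => (s : ZMod (M * r)) * x))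

lemma mem_scaled {M r q s : ℕ} {x : ZMod (M * r)}
    (hx : x ∈ (base M r q).image (fun x => (s : ZMod (M * r)) * x)) :
    ∃ i < q, x = ((r * (s * i) : ℕ) : ZMod (M * r)) := by
  simp only [base, Finset.mem_image, Finset.mem_range] at hx
  obtain ⟨y, ⟨i, hi, rfl⟩, rfl⟩ := hx
  exact ⟨i, hi, by push_cast; ring⟩

lemma scaled_mem {M r q s i : ℕ} (hi : i < q) :
    ((r * (s * i) : ℕ) : ZMod (M * r)) ∈ (base M r q).image (fun x => (s : ZMod (M * r)) * x) := by
  simp only [base, Finset.mem_image, Finset.mem_range]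
  exact ⟨_, ⟨i, hi, rfl⟩, by push_cast; ring⟩

lemma scaled_mul {M r q s : ℕ} {x : ZMod (M * r)}
    (hx : x ∈ (base M r q).image (fun x => (s : ZMod (M * r)) * x)) :
    x * (M : ZMod (M * r)) = 0 := by
  obtain ⟨i, _, rfl⟩ := mem_scaled hx
  rw [← Nat.cast_mul, ZMod.natCast_eq_zero_iff]
  exact ⟨s * i, by ring⟩

lemma one_notMem_scaled {M r q s : ℕ} (hr : 2 ≤ r) :
    (1 : ZMod (M * r)) ∉ (base M r q).image (fun x => (s : ZMod (M * r)) * x) := by
  intro h
  obtain ⟨i, _, h⟩ := mem_scaled h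
  have h1 := congrArg (ZMod.castHom (Dvd.intro_left M rfl) (ZMod r)) h
  rw [map_one, map_natCast, Nat.cast_mul, ZMod.natCast_self, zero_mul] at h1
  have : Fact (1 < r) := ⟨by omega⟩
  exact one_ne_zero h1

lemma natCast_inj_of_lt {k a b : ℕ} (ha : a < k) (hb : b < k)
    (h : ((a : ℕ) : ZMod k) = ((b : ℕ) : ZMod k)) : a = b := by
  rw [ZMod.natCast_eq_natCast_iff', Nat.mod_eq_of_lt ha, Nat.mod_eq_of_lt hb] at h
  exact h

lemma card_base {M r q : ℕ} (hr : 0 < r) (hq : q ≤ M) : (base M r q).card = q := by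
  rw [base, Finset.card_image_of_injOn, Finset.card_range]
  intro i hi l hl h
  simp only [Finset.coe_range, Set.mem_Iio] at hi hl
  have b1 : r * i < M * r := by nlinarith
  have b2 : r * l < M * r := by nlinarith
  exact Nat.eq_of_mul_eq_mul_left hr (natCast_inj_of_lt b1 b2 h)

/-- The inequivalence statement, one half. -/
lemma le_of_equiv {M r q s s' : ℕ} [NeZero (M * r)] (hq : 2 ≤ q) (hr : 2 ≤ r) (hs : 0 < s)
    (hMr : M ∣ r) (hM : s + s' * q < M)
    (h : Equivalent (setE M r q s) (setE M r q s')) : s' ≤ s := by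
  obtain ⟨u, c, h⟩ := h
  have hmem : ∀ x ∈ setE M r q s, (u : ZMod (M * r)) * x + c ∈ setE M r q s' := by
    intro x hx
    rw [h]
    exact Finset.mem_image_of_mem _ hx
  have : Fact (1 < r) := ⟨by omega⟩
  set φ := ZMod.castHom (Dvd.intro_left M rfl : r ∣ M * r) (ZMod r) with hφ
  have hφE : ∀ x ∈ (base M r q).image (fun x => (s' : ZMod (M * r)) * x), φ x = 0 := by
    intro x hx
    obtain ⟨i, _, rfl⟩ := mem_scaled hx
    rw [map_natCast, Nat.cast_mul, ZMod.natCast_self, zero_mul]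
  have hmemE : ∀ x ∈ setE M r q s', x = 1 ∨ φ x = 0 := by
    intro x hx
    rcases Finset.mem_insert.mp hx with h1 | h1
    · exact Or.inl h1
    · exact Or.inr (hφE x h1)
  -- the two base elements
  have m0 : (0 : ZMod (M * r)) ∈ setE M r q s := by
    have := scaled_mem (M := M) (r := r) (q := q) (s := s) (i := 0) (by omega)
    rw [mul_zero, mul_zero, Nat.cast_zero] at this
    exact Finset.mem_insert_of_mem this
  have m1 : ((r * s : ℕ) : ZMod (M * r)) ∈ setE M r q s := by
    have := scaled_mem (M := M) (r := r) (q := q) (s := s) (i := 1) (by omega)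
    rw [mul_one] at this
    exact Finset.mem_insert_of_mem this
  have mone : (1 : ZMod (M * r)) ∈ setE M r q s := Finset.mem_insert_self _ _
  have g0 := hmem _ m0
  have g1 := hmem _ m1
  have gone := hmem _ mone
  rw [mul_zero, zero_add] at g0
  rw [mul_one] at gone
  have hφx1 : φ ((r * s : ℕ) : ZMod (M * r)) = 0 := by
    rw [map_natCast, Nat.cast_mul, ZMod.natCast_self, zero_mul]
  have hx1 : ((r * s : ℕ) : ZMod (M * r)) ≠ 0 := by
    intro h0
    have hsM : s < M := by omega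
    have hlt : r * s < M * r := by
      rw [mul_comm M r]; exact Nat.mul_lt_mul_of_pos_left hsM (by omega)
    have h1 := natCast_inj_of_lt (k := M * r) (a := r * s) (b := 0) hlt (by omega)
      (by rw [h0, Nat.cast_zero])
    have : 0 < r * s := by positivity
    omega
  have hφc : φ c = 0 := by
    rcases hmemE _ g0 with h1 | h1
    · exfalso
      rcases hmemE _ g1 with h2 | h2
      · rw [h1] at h2
        have h3 : (u : ZMod (M * r)) * ((r * s : ℕ) : ZMod (M * r)) = 0 := by
          have := congrArg (fun z => z - 1) h2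
          simpa using this
        rw [Units.mul_right_eq_zero] at h3
        exact hx1 h3
      · rw [map_add, map_mul, hφx1, mul_zero, zero_add, h1, map_one] at h2
        exact one_ne_zero h2
    · exact h1
  have hc1 : c ≠ 1 := by
    intro h1
    rw [h1, map_one] at hφc
    exact one_ne_zero hφc
  have hcE : c ∈ (base M r q).image (fun x => (s' : ZMod (M * r)) * x) := by
    rcases Finset.mem_insert.mp g0 with h1 | h1
    · exact absurd h1 hc1
    · exact h1
  have hu : (u : ZMod (M * r)) + c = 1 := by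
    rcases hmemE _ gone with h1 | h1
    · exact h1
    · exfalso
      rw [map_add, hφc, add_zero] at h1
      have : IsUnit (φ (u : ZMod (M * r))) := u.isUnit.map φ
      rw [h1] at this
      exact not_isUnit_zero this
  obtain ⟨i0, hi0, hc⟩ := mem_scaled hcE
  -- `c * x1 = 0`
  have hcx : c * ((r * s : ℕ) : ZMod (M * r)) = 0 := by
    rw [hc, ← Nat.cast_mul, ZMod.natCast_eq_zero_iff]
    obtain ⟨v, hv⟩ := hMr
    exact ⟨s' * i0 * v * s, by
      calc r * (s' * i0) * (r * s) = r * (s' * i0) * ((M * v) * s) := by rw [← hv]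
        _ = M * r * (s' * i0 * v * s) := by ring⟩
  have g1' : ((r * s : ℕ) : ZMod (M * r)) + c ∈ setE M r q s' := by
    have : (u : ZMod (M * r)) * ((r * s : ℕ) : ZMod (M * r)) + c
        = ((r * s : ℕ) : ZMod (M * r)) + c := by
      have h1 : (u : ZMod (M * r)) = 1 - c := by rw [← hu]; ring
      rw [h1, sub_mul, hcx]; ring
    rw [← this]; exact g1
  have g1'' : ((r * s : ℕ) : ZMod (M * r)) + c
      ∈ (base M r q).image (fun x => (s' : ZMod (M * r)) * x) := by
    rcases Finset.mem_insert.mp g1' with h1 | h1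
    · exfalso
      have h2 := congrArg φ h1
      rw [map_add, hφx1, hφc, map_one, add_zero] at h2
      exact zero_ne_one h2
    · exact h1
  obtain ⟨i1, hi1, h2⟩ := mem_scaled g1''
  rw [hc, ← Nat.cast_add] at h2
  have hb1 : s' * i0 ≤ s' * q := Nat.mul_le_mul_left _ hi0.le
  have hb2 : s' * i1 ≤ s' * q := Nat.mul_le_mul_left _ hi1.le
  have hr0 : 0 < r := by omega
  have b1 : r * s + r * (s' * i0) < M * r := by nlinarith
  have b2 : r * (s' * i1) < M * r := by nlinarith
  have h3 := natCast_inj_of_lt b1 b2 h2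
  have h4 : s + s' * i0 = s' * i1 := by
    have : r * (s + s' * i0) = r * (s' * i1) := by rw [← h3]; ring
    exact Nat.eq_of_mul_eq_mul_left hr0 this
  have h5 : s' * i0 < s' * i1 := by omega
  have h6 : i0 < i1 := Nat.lt_of_mul_lt_mul_left h5
  have h7 : s' * (i0 + 1) ≤ s' * i1 := Nat.mul_le_mul_left _ h6
  nlinarith

/-- For every cardinality `n ≥ 3` and every `L` there are a cyclic group `ZMod k` and `L`
pairwise inequivalent `n`-element subsets of it, all containing `0` and `1` (so each generates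
`ZMod k`) and all with the same Sidon constant, none of which is extreme. -/
theorem result :
    ∀ n : ℕ, 3 ≤ n → ∀ L : ℕ, ∃ (k : ℕ) (_ : NeZero k) (S : Fin L → Finset (ZMod k)),
      (∀ j, (S j).card = n ∧ 0 ∈ S j ∧ 1 ∈ S j) ∧
      (∀ i j, sidonConst (S i) = sidonConst (S j)) ∧
      (∀ j, ¬ IsExtreme (S j)) ∧
      ∀ i j, i ≠ j → ¬ Equivalent (S i) (S j) := by
  intro n hn L
  obtain ⟨q, rfl⟩ : ∃ q, n = q + 1 := ⟨n - 1, by omega⟩
  have hq : 2 ≤ q := by omega
  obtain ⟨N, hN⟩ : ∃ N, N = (2 * L + 1) * (q + 1) + 1 := ⟨_, rfl⟩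
  obtain ⟨M, hMdef⟩ : ∃ M, M = 2 ^ N := ⟨_, rfl⟩
  obtain ⟨r, hrdef⟩ : ∃ r, r = 2 * M := ⟨_, rfl⟩
  have hMN : N < M := by rw [hMdef]; exact Nat.lt_two_pow_self
  have hML : (2 * L + 1) * (q + 1) < M := by omega
  have hM2 : 2 ≤ M := by nlinarith
  have hr2 : 2 ≤ r := by omega
  have hk : NeZero (M * r) := ⟨by
    have : 0 < M * r := Nat.mul_pos (by omega) (by omega)
    omega⟩
  have hqM : q ≤ M := by nlinarith
  have hcop : ∀ j : ℕ, Nat.Coprime (2 * j + 1) (M * r) := by
    intro j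
    have h1 : Nat.Coprime (2 * j + 1) 2 := by
      rw [Nat.coprime_two_right]
      exact ⟨j, rfl⟩
    rw [hrdef, hMdef]
    exact Nat.Coprime.mul_right (h1.pow_right N) (Nat.Coprime.mul_right h1 (h1.pow_right N))
  -- each set as the image under a unit
  have hunit : ∀ j : ℕ, ((ZMod.unitOfCoprime (2 * j + 1) (hcop j) : (ZMod (M * r))ˣ) : ZMod (M * r))
      = ((2 * j + 1 : ℕ) : ZMod (M * r)) := fun j => ZMod.coe_unitOfCoprime _ _
  have hcardS : ∀ j : ℕ, ((base M r q).image
      (fun x => ((2 * j + 1 : ℕ) : ZMod (M * r)) * x)).card = q := by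
    intro j
    rw [Finset.card_image_of_injective, card_base (by omega) hqM]
    intro x y h
    simp only [← hunit j] at h
    exact (Units.mul_right_inj _).mp h
  have hcard : ∀ j : ℕ, (setE M r q (2 * j + 1)).card = q + 1 := by
    intro j
    rw [setE, Finset.card_insert_of_notMem (one_notMem_scaled hr2), hcardS]
  have hbase2 : ∃ x ∈ base M r q, ∃ y ∈ base M r q, x ≠ y := by
    have : 1 < (base M r q).card := by rw [card_base (by omega) hqM]; omega
    obtain ⟨x, hx, y, hy, hxy⟩ := Finset.one_lt_card.mp this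
    exact ⟨x, hx, y, hy, hxy⟩
  have hsidon : ∀ j : ℕ, sidonConst (setE M r q (2 * j + 1)) = sidonConst (base M r q) := by
    intro j
    obtain ⟨x, hx, y, hy, hxy⟩ := hbase2
    have hxy' : ((2 * j + 1 : ℕ) : ZMod (M * r)) * x ≠ ((2 * j + 1 : ℕ) : ZMod (M * r)) * y := by
      intro h
      rw [← hunit j] at h
      exact hxy ((Units.mul_right_inj _).mp h)
    rw [setE, sidonConst_insert hM2 (by omega) _ (fun x hx => scaled_mul hx)
      (one_notMem_scaled hr2) (Finset.mem_image_of_mem _ hx) (Finset.mem_image_of_mem _ hy) hxy',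
      ← hunit j, sidonConst_image_unit]
  refine ⟨M * r, hk, fun j => setE M r q (2 * j + 1), fun j => ⟨hcard j, ?_, ?_⟩,
    fun i j => by rw [hsidon, hsidon], fun j => ?_, fun i j hij h => ?_⟩
  · have := scaled_mem (M := M) (r := r) (q := q) (s := 2 * (j : ℕ) + 1) (i := 0) (by omega)
    rw [mul_zero, mul_zero, Nat.cast_zero] at this
    exact Finset.mem_insert_of_mem this
  · exact Finset.mem_insert_self _ _
  · unfold IsExtreme
    rw [hsidon, hcard]
    have h1 := sidonConst_le (base M r q)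
    rw [card_base (by omega) hqM] at h1
    have h2 : √(q : ℝ) < √((q + 1 : ℕ) : ℝ) := by
      apply Real.sqrt_lt_sqrt (by positivity)
      push_cast; linarith
    linarith
  · have hi := i.2
    have hj := j.2
    have e1 : 2 * (j : ℕ) + 1 ≤ 2 * (i : ℕ) + 1 := by
      refine le_of_equiv hq hr2 (by omega) ⟨2, by omega⟩ ?_ h
      nlinarith
    have e2 : 2 * (i : ℕ) + 1 ≤ 2 * (j : ℕ) + 1 := by
      refine le_of_equiv hq hr2 (by omega) ⟨2, by omega⟩ ?_ h.symm
      nlinarith
    exact hij (Fin.ext (by omega))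

end Pool.Agent.Results.MP_e96fbd_an.EqualSidon
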